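import Pool.Agent.Helper449_SCT.Sep

/-!
MP_1f99fc_al, Q1 and Q2: for every `n` and every finite field `F`, André's supercharacter theory of
the group `U_n(F)` of upper unitriangular matrices is the coarsest supercharacter theory of `U_n(F)`
that contains all single-box irreducible characters.

The statement includes that André's pair is a supercharacter theory whose supercharacters are the
orbit sums `xi θ μ`, and that the single-box orbit sums are positive multiples of irreducible
characters which form singleton blocks (these facts are in the problem's list of what is known, and
are proved here from scratch). The answer to the question is the last part: in a supercharacter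
theory `(X, K)` containing the single-box characters, each superclass lies in an André superclass,
and each block of `X` lies in an André block.

Proof of the last part: each single-box orbit sum is constant on the blocks of `K`. For
`y = g - 1`, it is a positive multiple of `S(y) = ∑_{u, v} θ(a (u y v)_{ij})`. Every `y` is
equivalent under `U × U` to a matrix `D` with at most one nonzero entry in each row and column, and
`S(D) = 0` if `D` has a nonzero entry to the left of `(i, j)` in row `i` or below `(i, j)` in column
`j`, while otherwise `S(D)` is `θ(a D_{ij})` times a positive integer. So the numbers `S(y)`, for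
all `i < j` and `a ≠ 0`, determine `D`, and with it the André superclass of `g`.
-/

set_option autoImplicit false

namespace Pool.Agent.Results.MP_1f99fc_al.Coarsest

open Pool.Agent.Helper449_SCT

theorem result (n : ℕ) (F : Type) [Field F] [Finite F] (θ : AddChar F ℂ) (hθ : θ ≠ 1) :
    -- André's theory is a supercharacter theory, its supercharacters being the orbit sums
    (IsSCT (andreX n θ) (andreK n F) ∧
      ∀ μ : Module.Dual F (nn n F), sigma (blk θ μ) = xi θ μ) ∧
    -- it contains the single-box irreducible characters
    HasBoxes θ (andreX n θ) ∧
    -- every supercharacter theory that contains them is finer than André's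
    ∀ (X : Set (Set (UT n F → ℂ))) (K : Set (Set (UT n F))), IsSCT X K → HasBoxes θ X →
      (∀ C ∈ K, ∃ C' ∈ andreK n F, C ⊆ C') ∧ ∀ B ∈ X, ∃ B' ∈ andreX n θ, B ⊆ B' := by
  refine ⟨⟨andre_isSCT θ hθ, sigma_blk θ hθ⟩, andre_hasBoxes θ hθ, fun X K h hB => ?_⟩
  have h1 := refines θ hθ h hB
  exact ⟨h1, refineX h (andre_isSCT θ hθ) h1⟩

end Pool.Agent.Results.MP_1f99fc_al.Coarsest
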